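import Pool.Agent.L0h99.MN.Stm

/-!
# Project MN (helper99): the module C1, by helper60

Two heavy vertices with a common neighbour.
-/

set_option autoImplicit false
set_option linter.all false

namespace Pool.Agent.L0h60.MN

open Pool.Agent.L0h99.MN Finset

section

variable {V : Type} [Fintype V] [DecidableEq V] {G : SimpleGraph V} {W H : Finset V}

theorem good_unique {v : V} (hT : Tame G W H v) {a t g k : V} (ha : G.Adj v a) (ht : G.Adj v t)
    (h1 : Good G W H v a g) (h2 : Good G W H v t k) : g = k := by
  obtain ⟨p, q, w, _, _, _, hN, hp, hq, hw⟩ := hT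
  have e : ∀ x, G.Adj v x → ∀ y, Good G W H v x y → x = w := by
    intro x hx y hy
    have h3 : x ∈ N G v := mem_N.2 hx
    rw [hN] at h3
    simp only [Finset.mem_insert, Finset.mem_singleton] at h3
    rcases h3 with h3 | h3 | h3
    · rw [h3] at hy
      exact absurd hy (hp y)
    · rw [h3] at hy
      exact absurd hy (hq y)
    · exact h3
  rw [e a ha g h1] at h1
  rw [e t ht k h2] at h2
  exact hw g k h1 h2

end

theorem C1 : St_C1 := by
  classical
  intro V _ _ G W H h34 hI hTame
  by_cases hCA : CA G H
  · exact Or.inr hCA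
  left
  unfold CA at hCA
  push Not at hCA
  obtain ⟨a, h, hh, g, hg, hah, hag, hne⟩ := hCA
  have hhg : ¬ G.Adj h g := hI.ind h hh g hg
  have hTW : ({h, g} ∪ (N G h ∪ N G g) : Finset V) ⊆ W := by
    intro x hx
    rw [mem_union, mem_union, mem_insert, mem_singleton, mem_N, mem_N] at hx
    rcases hx with (rfl | rfl) | hx | hx
    · exact hI.sub hh
    · exact hI.sub hg
    · exact hI.hN h hh x hx
    · exact hI.hN g hg x hx
  refine ⟨{h, g} ∪ (N G h ∪ N G g), ∅, hTW, Finset.empty_subset _, Finset.disjoint_empty_right _,
    fun x hx => absurd hx (Finset.notMem_empty x), ?_, ?_, ?_,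
    fun x hx => absurd hx (Finset.notMem_empty x)⟩
  · -- the centre
    refine ⟨a, ?_, ?_⟩
    · rw [mem_union, mem_union, mem_N, mem_N]
      exact Or.inr (Or.inl hah.symm)
    · intro x hx
      rw [mem_union, mem_union, mem_insert, mem_singleton, mem_N, mem_N] at hx
      rcases hx with (rfl | rfl) | hx | hx
      · exact Or.inr (Or.inl hah)
      · exact Or.inr (Or.inl hag)
      · refine Or.inr (Or.inr ⟨h, ?_, hah, hx⟩)
        rw [mem_union, mem_insert]
        exact Or.inl (Or.inl rfl)
      · refine Or.inr (Or.inr ⟨g, ?_, hag, hx⟩)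
        rw [mem_union, mem_insert, mem_singleton]
        exact Or.inl (Or.inr rfl)
  · -- the weight
    have h1 : (N G h ∩ N G g).card ≤ 1 := by
      rw [Finset.card_le_one]
      have h2 : ∀ x ∈ N G h ∩ N G g, a = x := by
        intro x hx
        rw [mem_inter, mem_N, mem_N] at hx
        exact h34.q h a g x hah.symm hag hx.1 hx.2.symm hne
      intro x hx y hy
      rw [← h2 x hx, ← h2 y hy]
    have h3 := Finset.card_union_add_card_inter (N G h) (N G g)
    have h4 := hI.deg h (hI.sub hh)
    have h5 := hI.deg g (hI.sub hg)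
    have h6 : Disjoint ({h, g} : Finset V) (N G h ∪ N G g) := by
      rw [Finset.disjoint_left]
      intro x hx hx'
      rw [mem_insert, mem_singleton] at hx
      rw [mem_union, mem_N, mem_N] at hx'
      rcases hx with rfl | rfl
      · rcases hx' with hx' | hx'
        · exact hx'.ne rfl
        · exact hhg hx'.symm
      · rcases hx' with hx' | hx'
        · exact hhg hx'
        · exact hx'.ne rfl
    have h7 : ({h, g} ∪ (N G h ∪ N G g) : Finset V).card = 2 + (N G h ∪ N G g).card := by
      rw [Finset.card_union_of_disjoint h6, Finset.card_pair hne]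
    have h8 : ((({h, g} ∪ (N G h ∪ N G g) : Finset V).card : ℕ) : ℤ) ≤
        Mu G ({h, g} ∪ (N G h ∪ N G g)) := by
      unfold Mu
      rw [Finset.cast_card]
      refine Finset.sum_le_sum fun x hx => ?_
      have h9 := hI.deg x (hTW hx)
      unfold mu
      omega
    have h10 : ee G ∅ ∅ = 0 := by simp [ee]
    have h11 : Mu G ∅ = 0 := by simp [Mu]
    rw [h10, h11]
    omega
  · intro k hk hkT y hy hky
    rcases hy with hy | hy
    · have hkh : k ≠ h := by
        rintro rfl
        apply hkT
        rw [mem_union, mem_insert]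
        exact Or.inl (Or.inl rfl)
      have hkg : k ≠ g := by
        rintro rfl
        apply hkT
        rw [mem_union, mem_insert, mem_singleton]
        exact Or.inl (Or.inr rfl)
      rw [mem_union, mem_union, mem_insert, mem_singleton, mem_N, mem_N] at hy
      rcases hy with (rfl | rfl) | hy | hy
      · exact hI.ind k hk y hh hky
      · exact hI.ind k hk y hg hky
      · exact hkg (good_unique (hTame h hh) hah.symm hy
          (g := g) (k := k) ⟨hI.sub hg, hag, hne.symm, Or.inl hg⟩
          ⟨hI.sub hk, hky.symm, hkh, Or.inl hk⟩).symm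
      · exact hkh (good_unique (hTame g hg) hag.symm hy
          (g := h) (k := k) ⟨hI.sub hh, hah, hne, Or.inl hh⟩
          ⟨hI.sub hk, hky.symm, hkg, Or.inl hk⟩).symm
    · exact absurd hy (Finset.notMem_empty y)

end Pool.Agent.L0h60.MN
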