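import Pool.Agent.L0h99.MN.Stm

/-!
# Project MN (helper99): the module SML, by helper60

No short circuits.
-/

set_option autoImplicit false
set_option linter.all false

namespace Pool.Agent.L0h60.MN

open Pool.Agent.L0h99.MN SimpleGraph

theorem SML : St_SML := by
  intro V _ _ G h
  refine ⟨?_, ?_⟩
  · intro a b c hab hbc hac
    have h1 := h a c (Walk.cons hac Walk.nil) (Walk.cons hab (Walk.cons hbc Walk.nil))
      (by simp [Walk.cons_isPath_iff, hac.ne])
      (by simp [Walk.cons_isPath_iff, hab.ne, hbc.ne, hac.ne]) (by simp)
    have h2 := congrArg Walk.length h1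
    simp at h2
  · intro a b c d hab hbc had hdc hac
    have h1 := h a c (Walk.cons hab (Walk.cons hbc Walk.nil))
      (Walk.cons had (Walk.cons hdc Walk.nil))
      (by simp [Walk.cons_isPath_iff, hab.ne, hbc.ne, hac])
      (by simp [Walk.cons_isPath_iff, had.ne, hdc.ne, hac]) (by simp)
    have h2 := congrArg Walk.support h1
    simp at h2
    exact h2

end Pool.Agent.L0h60.MN
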